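import Pool.Agent.Q185.Mycielski.Count

/-!
# MP_9ec85a_gt: there is no discrete weak Mycielski set in `ℝ³`, nor in any `ℝ^d`

Let `X` be a weak Mycielski set in `ℝ^d`, `g X = X \ {p}`, `h X = X \ {q}`, and suppose that every
point of `X` is isolated. (1) No nonempty word in `g, h` has a fixed point: an orbit of a missed
point would be bounded, so it would return close to itself. (2) Hence different words of the same
length differ on `X`: otherwise, comparing the missed points, `p = a q` and `q = b p` for
nonempty words `a, b`. (3) For a word `w` of length `n` and a point `x` of `X`, the ball of radius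
`ε_x` around `w x` contains at most `n + 1` points of `X`, so the words of length `n` take only
polynomially many values at `x`; as an isometry is determined by finitely many values on the
affine span, `2^n` is at most a polynomial in `n`, a contradiction.
-/

namespace Pool.Agent.Results.MP_9ec85a_gt.NoDiscreteWeakMycielski

open Pool.Q185.Mycielski

/-- No weak Mycielski set of `ℝ³` is discrete; more generally this holds in every `ℝ^d`. -/
theorem result :
    (¬ ∃ X : Set (EuclideanSpace ℝ (Fin 3)), WeakMycielski X ∧ IsDiscreteSet X) ∧
    ∀ d : ℕ, ¬ ∃ X : Set (EuclideanSpace ℝ (Fin d)), WeakMycielski X ∧ IsDiscreteSet X :=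
  ⟨fun ⟨X, h1, h2⟩ => no_discrete_weakMycielski 3 X h1 h2,
    fun d ⟨X, h1, h2⟩ => no_discrete_weakMycielski d X h1 h2⟩

end Pool.Agent.Results.MP_9ec85a_gt.NoDiscreteWeakMycielski
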